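import Pool.Agent.H666R3.NG.GenusDefs

/-!
# Cech genus of a double cover: the algebra
-/

set_option autoImplicit false

open Polynomial

namespace Pool.Agent.W129.GB

open Pool.Agent.H666R3.NG

noncomputable section

variable {k : Type} [Field k]

/-- `CokerDim` for the canonical algebra structure. -/
theorem cokerDim_iff {A B C : Type} [CommRing A] [CommRing B] [CommRing C] [Algebra k C]
    (u : A →+* C) (v : B →+* C) (g : ℕ) :
    CokerDim (algebraMap k C) u v g ↔
      (Module.Finite k (C ⧸ Submodule.span k (Set.range u ∪ Set.range v)) ∧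
        Module.finrank k (C ⧸ Submodule.span k (Set.range u ∪ Set.range v)) = g) := by
  have : (algebraMap k C).toAlgebra = (inferInstance : Algebra k C) := by
    apply Algebra.algebra_ext
    intro r
    rfl
  unfold CokerDim
  rw [this]

/-- Distinct points can be separated by functions. -/
theorem exists_dual {R : Type} [CommRing R] [Algebra k R] {n : ℕ} (q : Fin n → (R →ₐ[k] k))
    (hq : Function.Injective q) :
    ∃ a : Fin n → R, ∀ i j, q i (a j) = if i = j then 1 else 0 := by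
  have h1 : ∀ i j, i ≠ j → ∃ c : R, q i c = 1 ∧ q j c = 0 := by
    intro i j hij
    have hne : q i ≠ q j := fun h => hij (hq h)
    obtain ⟨c, hc⟩ : ∃ c, q i c ≠ q j c := by
      by_contra hcon
      push Not at hcon
      exact hne (AlgHom.ext hcon)
    refine ⟨(q i c - q j c)⁻¹ • (c - algebraMap k R (q j c)), ?_, ?_⟩
    · rw [map_smul, map_sub, AlgHom.commutes, Algebra.algebraMap_self, RingHom.id_apply, smul_eq_mul,
        inv_mul_cancel₀ (sub_ne_zero.mpr hc)]
    · rw [map_smul, map_sub, AlgHom.commutes, Algebra.algebraMap_self, RingHom.id_apply, sub_self,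
        smul_zero]
  choose! c hc1 hc0 using h1
  refine ⟨fun j => ∏ i ∈ Finset.univ.erase j, c j i, ?_⟩
  intro i j
  rw [map_prod]
  split_ifs with h
  · subst h
    apply Finset.prod_eq_one
    intro l hl
    exact hc1 i l (Finset.ne_of_mem_erase hl).symm
  · apply Finset.prod_eq_zero (Finset.mem_erase.mpr ⟨h, Finset.mem_univ i⟩)
    exact hc0 j i (Ne.symm h)

theorem mem_span_union_range {A B C : Type} [CommRing A] [CommRing B] [CommRing C] [Algebra k A]
    [Algebra k B] [Algebra k C] (u : A →ₐ[k] C) (v : B →ₐ[k] C) (z : C) :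
    z ∈ Submodule.span k (Set.range u.toRingHom ∪ Set.range v.toRingHom) ↔
      ∃ a b, u a + v b = z := by
  have hu : Submodule.span k (Set.range u.toRingHom) = LinearMap.range u.toLinearMap := by
    apply le_antisymm
    · rw [Submodule.span_le]
      rintro _ ⟨a, rfl⟩
      exact ⟨a, rfl⟩
    · rintro _ ⟨a, rfl⟩
      exact Submodule.subset_span ⟨a, rfl⟩
  have hv : Submodule.span k (Set.range v.toRingHom) = LinearMap.range v.toLinearMap := by
    apply le_antisymm
    · rw [Submodule.span_le]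
      rintro _ ⟨a, rfl⟩
      exact ⟨a, rfl⟩
    · rintro _ ⟨a, rfl⟩
      exact Submodule.subset_span ⟨a, rfl⟩
  rw [Submodule.span_union, hu, hv, Submodule.mem_sup]
  constructor
  · rintro ⟨_, ⟨a, rfl⟩, _, ⟨b, rfl⟩, h⟩
    exact ⟨a, b, h⟩
  · rintro ⟨a, b, h⟩
    exact ⟨_, ⟨a, rfl⟩, _, ⟨b, rfl⟩, h⟩

/-- Finite generation of `R02` modulo `R0 + x2 R2`. -/
theorem exists_finite_gen {R0 R2 R02 : Type} [CommRing R0] [CommRing R2] [CommRing R02]
    [Algebra k R0] [Algebra k R2] [Algebra k R02] (r0 : R0 →ₐ[k] R02) (r2 : R2 →ₐ[k] R02)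
    (x0 : R0) (x2 : R2) (hx : r0 x0 * r2 x2 = 1)
    (hfin0 : (aeval x0 : k[X] →ₐ[k] R0).toRingHom.Finite)
    (hloc0 : ∀ z : R02, ∃ (n : ℕ) (a : R0), z * r0 x0 ^ n = r0 a)
    (hloc2 : ∀ z : R02, ∃ (n : ℕ) (b : R2), z * r2 x2 ^ n = r2 b) :
    ∃ F : Set R02, F.Finite ∧ ∀ z : R02, ∃ f ∈ Submodule.span k F, ∃ (a : R0) (b : R2),
      z = f + r0 a + r2 (b * x2) := by
  classical
  obtain ⟨s, hs⟩ : ∃ s : Finset R0, ∀ a : R0, ∃ c : R0 → k[X], ∑ e ∈ s, aeval x0 (c e) * e = a := by
    let _ : Algebra k[X] R0 := (aeval x0 : k[X] →ₐ[k] R0).toRingHom.toAlgebra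
    have hf : Module.Finite k[X] R0 := hfin0
    obtain ⟨s, hs⟩ := hf.fg_top
    refine ⟨s, fun a => ?_⟩
    have ha : a ∈ Submodule.span k[X] (s : Set R0) := by rw [hs]; trivial
    obtain ⟨c, -, hc⟩ := Submodule.mem_span_finset.mp ha
    refine ⟨c, ?_⟩
    rw [← hc]
    apply Finset.sum_congr rfl
    intro e _
    rw [Algebra.smul_def]
    rfl
  have hb := fun e : R0 => hloc2 (r0 e)
  choose m b hb using hb
  set M := s.sup m with hM
  let F0 : Finset R02 := (s ×ˢ Finset.range (M + 1)).image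
    (fun em : R0 × ℕ => r0 em.1 * r2 x2 ^ em.2)
  set F : Set R02 := (F0 : Set R02) with hF
  let P : Submodule k R02 := Submodule.span k F ⊔ (LinearMap.range r0.toLinearMap ⊔
    LinearMap.range (r2.toLinearMap.comp (LinearMap.mulRight k x2)))
  have hP0 : ∀ a, r0 a ∈ P := fun a =>
    Submodule.mem_sup_right (Submodule.mem_sup_left ⟨a, rfl⟩)
  have hP2 : ∀ a, r2 (a * x2) ∈ P := fun a =>
    Submodule.mem_sup_right (Submodule.mem_sup_right ⟨a, rfl⟩)
  have hA : ∀ e ∈ s, ∀ j : ℕ, r0 e * r2 x2 ^ j ∈ P := by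
    intro e he j
    by_cases hj : j ≤ M
    · apply Submodule.mem_sup_left
      apply Submodule.subset_span
      rw [hF]
      simp only [F0, Finset.coe_image, Set.mem_image, Finset.mem_coe, Finset.mem_product,
        Finset.mem_range]
      exact ⟨(e, j), ⟨he, by omega⟩, rfl⟩
    · have h1 : m e ≤ M := Finset.le_sup he
      obtain ⟨i, rfl⟩ : ∃ i, j = m e + (i + 1) := ⟨j - m e - 1, by omega⟩
      have h2 : r0 e * r2 x2 ^ (m e + (i + 1)) = r2 (b e * x2 ^ i * x2) := by
        rw [pow_add, ← mul_assoc, hb, map_mul, map_mul, map_pow, pow_succ, mul_assoc]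
      rw [h2]
      exact hP2 _
  have hB : ∀ e ∈ s, ∀ i j : ℕ, r0 (x0 ^ i * e) * r2 x2 ^ j ∈ P := by
    intro e he i j
    rcases le_total i j with h | h
    · obtain ⟨l, rfl⟩ := Nat.exists_eq_add_of_le h
      have h2 : r0 (x0 ^ i * e) * r2 x2 ^ (i + l) = r0 e * r2 x2 ^ l := by
        rw [map_mul, map_pow, pow_add]
        calc r0 x0 ^ i * r0 e * (r2 x2 ^ i * r2 x2 ^ l)
            = (r0 x0 * r2 x2) ^ i * (r0 e * r2 x2 ^ l) := by ring
          _ = _ := by rw [hx, one_pow, one_mul]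
      rw [h2]
      exact hA e he l
    · obtain ⟨l, rfl⟩ := Nat.exists_eq_add_of_le h
      have h2 : r0 (x0 ^ (j + l) * e) * r2 x2 ^ j = r0 (x0 ^ l * e) := by
        rw [map_mul, map_pow, map_mul, map_pow, pow_add]
        calc r0 x0 ^ j * r0 x0 ^ l * r0 e * r2 x2 ^ j
            = (r0 x0 * r2 x2) ^ j * (r0 x0 ^ l * r0 e) := by ring
          _ = _ := by rw [hx, one_pow, one_mul]
      rw [h2]
      exact hP0 _
  have hC : ∀ e ∈ s, ∀ (f : k[X]) (j : ℕ), r0 (aeval x0 f * e) * r2 x2 ^ j ∈ P := by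
    intro e he f j
    rw [aeval_eq_sum_range, Finset.sum_mul, map_sum, Finset.sum_mul]
    apply Submodule.sum_mem
    intro i _
    rw [smul_mul_assoc, map_smul, smul_mul_assoc]
    exact Submodule.smul_mem _ _ (hB e he i j)
  refine ⟨F, Finset.finite_toSet _, fun z => ?_⟩
  have hz : z ∈ P := by
    obtain ⟨n, a, ha⟩ := hloc0 z
    have h1 : z = r0 a * r2 x2 ^ n := by
      rw [← ha, mul_assoc, ← mul_pow, hx, one_pow, mul_one]
    obtain ⟨c, rfl⟩ := hs a
    rw [h1, map_sum, Finset.sum_mul]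
    apply Submodule.sum_mem
    intro e he
    exact hC e he _ _
  obtain ⟨f, hf, y, hy, hfy⟩ := Submodule.mem_sup.mp hz
  obtain ⟨_, ⟨a, rfl⟩, _, ⟨b', rfl⟩, hab⟩ := Submodule.mem_sup.mp hy
  refine ⟨f, hf, a, b', ?_⟩
  rw [← hfy, ← hab, add_assoc]
  rfl

/-- Lower bound and finiteness for the Čech genus of a double cover. -/
theorem cech_genus {R0 R2 R02 S0 S2 S02 : Type}
    [CommRing R0] [CommRing R2] [CommRing R02] [CommRing S0] [CommRing S2] [CommRing S02]
    [Algebra k R0] [Algebra k R2] [Algebra k R02] [Algebra k S0] [Algebra k S2] [Algebra k S02]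
    (r0 : R0 →ₐ[k] R02) (r2 : R2 →ₐ[k] R02) (s0 : S0 →ₐ[k] S02) (s2 : S2 →ₐ[k] S02)
    (p0 : R0 →ₐ[k] S0) (p2 : R2 →ₐ[k] S2) (p : R02 →ₐ[k] S02)
    (h0 : ∀ a, s0 (p0 a) = p (r0 a)) (h2 : ∀ a, s2 (p2 a) = p (r2 a))
    (w0 : S0) (w2 : S2) (x0 : R0) (x2 : R2)
    (hx : r0 x0 * r2 x2 = 1) (hw : s2 w2 = s0 w0 * p (r2 x2))
    (hd0 : ∀ s : S0, ∃ a b : R0, s = p0 a + p0 b * w0)
    (hd2 : ∀ s : S2, ∃ a b : R2, s = p2 a + p2 b * w2)
    (hd : ∀ s : S02, ∃ a b : R02, s = p a + p b * s0 w0)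
    (huniq : ∀ a b : R02, p a + p b * s0 w0 = 0 → a = 0 ∧ b = 0)
    (hglue : ∀ (a : R0) (b : R2), r0 a = r2 b → ∃ c : k, b = algebraMap k R2 c)
    (hfin0 : (aeval x0 : k[X] →ₐ[k] R0).toRingHom.Finite)
    (hloc0 : ∀ z : R02, ∃ (n : ℕ) (a : R0), z * r0 x0 ^ n = r0 a)
    (hloc2 : ∀ z : R02, ∃ (n : ℕ) (b : R2), z * r2 x2 ^ n = r2 b)
    {n : ℕ} (q : Fin (n + 1) → (R2 →ₐ[k] k)) (hq : Function.Injective q)
    (hqx : ∀ i, q i x2 = 0) :
    ∃ g, n ≤ g ∧ CokerDim (algebraMap k S02) s0.toRingHom s2.toRingHom g := by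
  classical
  set N : Submodule k S02 :=
    Submodule.span k (Set.range s0.toRingHom ∪ Set.range s2.toRingHom) with hN
  have hmem : ∀ z, z ∈ N ↔ ∃ a b, s0 a + s2 b = z := mem_span_union_range s0 s2
  have hN0 : ∀ a, s0 a ∈ N := fun a => (hmem _).mpr ⟨a, 0, by rw [map_zero, add_zero]⟩
  have hN2 : ∀ a, s2 a ∈ N := fun a => (hmem _).mpr ⟨0, a, by rw [map_zero, zero_add]⟩
  -- finiteness
  have hfin : Module.Finite k (S02 ⧸ N) := by
    obtain ⟨F, hF, hgen⟩ := exists_finite_gen r0 r2 x0 x2 hx hfin0 hloc0 hloc2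
    let G : Submodule k S02 := (Submodule.span k F).map p.toLinearMap ⊔
      ((Submodule.span k F).map p.toLinearMap).map (LinearMap.mulRight k (s0 w0))
    have hGfin : Module.Finite k G := by
      have h1 : (Submodule.span k F).FG := Submodule.fg_span hF
      have h3 : G.FG := (h1.map _).sup ((h1.map _).map _)
      exact Module.Finite.iff_fg.mpr h3
    have hG1 : ∀ f ∈ Submodule.span k F, p f ∈ G := fun f hf =>
      Submodule.mem_sup_left ⟨f, hf, rfl⟩
    have hG2 : ∀ f ∈ Submodule.span k F, p f * s0 w0 ∈ G := fun f hf =>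
      Submodule.mem_sup_right ⟨p f, ⟨f, hf, rfl⟩, rfl⟩
    have htop : ∀ z : S02, z ∈ G ⊔ N := by
      intro z
      obtain ⟨a, b, rfl⟩ := hd z
      obtain ⟨f, hf, a1, b1, rfl⟩ := hgen a
      obtain ⟨f', hf', a2, b2, rfl⟩ := hgen b
      have e1 : p (f + r0 a1 + r2 (b1 * x2)) + p (f' + r0 a2 + r2 (b2 * x2)) * s0 w0 =
          (p f + p f' * s0 w0) + (s0 (p0 a1) + s2 (p2 (b1 * x2)) + s0 (p0 a2 * w0) +
            s2 (p2 b2 * w2)) := by
        simp only [map_add, map_mul, h0, h2, hw]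
        ring
      rw [e1]
      apply Submodule.add_mem
      · exact Submodule.mem_sup_left (Submodule.add_mem _ (hG1 f hf) (hG2 f' hf'))
      · exact Submodule.mem_sup_right (Submodule.add_mem _ (Submodule.add_mem _
          (Submodule.add_mem _ (hN0 _) (hN2 _)) (hN0 _)) (hN2 _))
    apply Module.Finite.of_surjective (N.mkQ.comp G.subtype)
    intro y
    obtain ⟨z, rfl⟩ := N.mkQ_surjective y
    obtain ⟨g, hg, t, ht, rfl⟩ := Submodule.mem_sup.mp (htop z)
    refine ⟨⟨g, hg⟩, ?_⟩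
    rw [LinearMap.comp_apply, Submodule.subtype_apply, map_add]
    have : N.mkQ t = 0 := by rwa [Submodule.mkQ_apply, Submodule.Quotient.mk_eq_zero]
    rw [this, add_zero]
  refine ⟨Module.finrank k (S02 ⧸ N), ?_, ?_⟩
  · obtain ⟨a, ha⟩ := exists_dual q hq
    have hli : LinearIndependent k (fun i : Fin n => N.mkQ (p (r2 (a i.succ)) * s0 w0)) := by
      rw [Fintype.linearIndependent_iff]
      intro c hc
      have h1 : N.mkQ (∑ i, c i • (p (r2 (a i.succ)) * s0 w0)) = 0 := by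
        rw [map_sum]
        simpa only [map_smul] using hc
      rw [Submodule.mkQ_apply, Submodule.Quotient.mk_eq_zero, hmem] at h1
      obtain ⟨s, t, hst⟩ := h1
      obtain ⟨a1, b1, rfl⟩ := hd0 s
      obtain ⟨a2, b2, rfl⟩ := hd2 t
      have h3 : p (-(r0 a1 + r2 a2)) +
          p (∑ i, c i • r2 (a i.succ) - r0 b1 - r2 (b2 * x2)) * s0 w0 = 0 := by
        have e1 : p (∑ i, c i • r2 (a i.succ)) * s0 w0 =
            ∑ i, c i • (p (r2 (a i.succ)) * s0 w0) := by
          rw [map_sum, Finset.sum_mul]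
          apply Finset.sum_congr rfl
          intro i _
          rw [map_smul, smul_mul_assoc]
        rw [map_sub, map_sub, sub_mul, sub_mul, e1, ← hst]
        simp only [map_add, map_neg, map_mul, h0, h2, hw]
        ring
      obtain ⟨-, h4⟩ := huniq _ _ h3
      have h5 : r0 b1 = r2 (∑ i, c i • a i.succ - b2 * x2) := by
        rw [map_sub, map_sum]
        simp only [map_smul]
        rw [sub_sub, add_comm, ← sub_sub, sub_eq_zero] at h4
        exact h4.symm
      obtain ⟨γ, hγ⟩ := hglue _ _ h5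
      have h6 : ∀ j : Fin (n + 1), ∑ i, c i • (if j = i.succ then (1 : k) else 0) = γ := by
        intro j
        have h7 := congrArg (q j) hγ
        rw [map_sub, map_mul, hqx, mul_zero, sub_zero, map_sum, AlgHom.commutes] at h7
        simp only [map_smul, ha] at h7
        exact h7
      have h8 : γ = 0 := by
        rw [← h6 0]
        apply Finset.sum_eq_zero
        intro i _
        rw [if_neg (Fin.succ_ne_zero i).symm, smul_zero]
      intro i
      have h9 := h6 i.succ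
      rw [Finset.sum_eq_single i] at h9
      · rw [if_pos rfl, smul_eq_mul, mul_one] at h9
        rw [h9, h8]
      · intro j _ hj
        rw [if_neg (fun h => hj (Fin.succ_injective _ h).symm), smul_zero]
      · intro h; exact absurd (Finset.mem_univ i) h
    have := hli.fintype_card_le_finrank
    rwa [Fintype.card_fin] at this
  · rw [cokerDim_iff]
    exact ⟨hfin, rfl⟩

end

end Pool.Agent.W129.GB
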