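import Pool.Agent.H666R3.NG.GenusDefs

/-!
# Čech genus from affine charts
-/

set_option autoImplicit false

open AlgebraicGeometry CategoryTheory Opposite

namespace Pool.Agent.W129.GB

open Pool.Agent.H666R3.NG

noncomputable section

theorem cokerDim_of_equiv {k A B C A' B' C' : Type} [Field k] [CommRing A] [CommRing B]
    [CommRing C] [CommRing A'] [CommRing B'] [CommRing C'] (eA : A → A') (eB : B → B')
    (hA : Function.Surjective eA) (hB : Function.Surjective eB) (eC : C ≃+* C')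
    (s : k →+* C) (s' : k →+* C') (u : A →+* C) (v : B →+* C) (u' : A' →+* C') (v' : B' →+* C')
    (hs : ∀ x, eC (s x) = s' x) (hu : ∀ a, eC (u a) = u' (eA a)) (hv : ∀ a, eC (v a) = v' (eB a))
    {g : ℕ} (h : CokerDim s' u' v' g) : CokerDim s u v g := by
  let _ : Algebra k C := s.toAlgebra
  let _ : Algebra k C' := s'.toAlgebra
  let e : C ≃ₗ[k] C' :=
    { eC with
      map_smul' := by
        intro c x
        change eC (s c * x) = s' c * eC x
        rw [map_mul, hs] }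
  have he : ∀ x, e x = eC x := fun _ => rfl
  have hmap : (Submodule.span k (Set.range u ∪ Set.range v)).map (e : C →ₗ[k] C') =
      Submodule.span k (Set.range u' ∪ Set.range v') := by
    rw [Submodule.map_span]
    congr 1
    rw [Set.image_union]
    congr 1
    · ext y
      constructor
      · rintro ⟨_, ⟨a, rfl⟩, rfl⟩
        exact ⟨eA a, (hu a).symm⟩
      · rintro ⟨a', rfl⟩
        obtain ⟨a, rfl⟩ := hA a'
        exact ⟨u a, ⟨a, rfl⟩, hu a⟩
    · ext y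
      constructor
      · rintro ⟨_, ⟨a, rfl⟩, rfl⟩
        exact ⟨eB a, (hv a).symm⟩
      · rintro ⟨a', rfl⟩
        obtain ⟨a, rfl⟩ := hB a'
        exact ⟨v a, ⟨a, rfl⟩, hv a⟩
  let E := Submodule.Quotient.equiv _ _ e hmap
  obtain ⟨h1, h2⟩ := h
  refine ⟨?_, ?_⟩
  · exact Module.Finite.equiv E.symm
  · rw [← h2]
    exact E.finrank_eq

/-- The ring homomorphism from functions on an open set to the ring of an affine chart inside
it. -/
def chartHom {X : Scheme.{0}} {S : CommRingCat.{0}} (v : Spec S ⟶ X) (W : X.Opens)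
    (h : ⊤ ≤ v ⁻¹ᵁ W) : Γ(X, W) ⟶ S :=
  v.appLE W ⊤ h ≫ (Scheme.ΓSpecIso S).hom

theorem chartHom_isIso {X : Scheme.{0}} {S : CommRingCat.{0}} (v : Spec S ⟶ X)
    [IsOpenImmersion v] (W : X.Opens) (hW : W = v.opensRange)
    (h : ⊤ ≤ v ⁻¹ᵁ W) : IsIso (chartHom v W h) := by
  have h1 : IsIso (v.app W) := v.isIso_app W hW.le
  have h2 : v.appLE W ⊤ h = v.app W ≫ (Spec S).presheaf.map (homOfLE h).op := rfl
  have h3 : IsIso (v.appLE W ⊤ h) := by
    rw [h2]
    have : (homOfLE h) = eqToHom (top_le_iff.mp h).symm := rfl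
    rw [this]
    infer_instance
  unfold chartHom
  infer_instance

theorem map_chartHom {X : Scheme.{0}} {S : CommRingCat.{0}} (v : Spec S ⟶ X) (W U : X.Opens)
    (hWU : W ≤ U) (h : ⊤ ≤ v ⁻¹ᵁ W) (hU : ⊤ ≤ v ⁻¹ᵁ U) :
    X.presheaf.map (homOfLE hWU).op ≫ chartHom v W h = chartHom v U hU := by
  unfold chartHom
  rw [← Category.assoc]
  congr 1
  exact Scheme.Hom.map_appLE _ _ _

theorem chartHom_comp {X : Scheme.{0}} {S S' : CommRingCat.{0}} (v : Spec S ⟶ X)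
    (v' : Spec S' ⟶ X) (ρ : S ⟶ S') (e : Spec.map ρ ≫ v = v') (U : X.Opens)
    (h : ⊤ ≤ v ⁻¹ᵁ U) (h' : ⊤ ≤ v' ⁻¹ᵁ U) :
    chartHom v U h ≫ ρ = chartHom v' U h' := by
  subst e
  unfold chartHom
  rw [Category.assoc, ← Scheme.ΓSpecIso_naturality, ← Category.assoc]
  congr 1

theorem fnHom_chartHom {X : Scheme.{0}} {k : Type} [Field k] (f : X ⟶ Spec (.of k))
    {S : CommRingCat.{0}} (v : Spec S ⟶ X) (W : X.Opens) (h : ⊤ ≤ v ⁻¹ᵁ W)
    (σ : CommRingCat.of k ⟶ S) (eσ : Spec.map σ = v ≫ f) (x : k) :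
    (chartHom v W h).hom (fnHom f W x) = σ.hom x := by
  have h1 : (Scheme.ΓSpecIso (.of k)).inv ≫ f.appTop ≫ X.presheaf.map (homOfLE le_top).op ≫
      chartHom v W h = σ := by
    have hU : (⊤ : (Spec S).Opens) ≤ v ⁻¹ᵁ ⊤ := le_top
    rw [map_chartHom v W ⊤ le_top h hU]
    unfold chartHom
    have h2 : f.appTop ≫ v.appLE ⊤ ⊤ hU = (Spec.map σ).appTop := by
      rw [eσ, Scheme.Hom.comp_appTop]
      congr 1
    rw [← Category.assoc f.appTop, h2, Scheme.ΓSpecIso_naturality, Iso.inv_hom_id_assoc]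
  have h3 := congrArg (fun φ => φ.hom x) h1
  exact h3

theorem hasGenus_of_charts {k : Type} [Field k] {X : Scheme.{0}} (f : X ⟶ Spec (.of k))
    {S0 S2 S02 : CommRingCat.{0}} (v0 : Spec S0 ⟶ X) (v2 : Spec S2 ⟶ X) (v02 : Spec S02 ⟶ X)
    [IsOpenImmersion v0] [IsOpenImmersion v2] [IsOpenImmersion v02]
    (h1 : v0.opensRange ⊔ v2.opensRange = ⊤)
    (h2 : v02.opensRange = v0.opensRange ⊓ v2.opensRange)
    (ρ0 : S0 ⟶ S02) (ρ2 : S2 ⟶ S02) (e0 : Spec.map ρ0 ≫ v0 = v02) (e2 : Spec.map ρ2 ≫ v2 = v02)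
    (σ : CommRingCat.of k ⟶ S02) (eσ : Spec.map σ = v02 ≫ f) (g : ℕ)
    (h : CokerDim σ.hom ρ0.hom ρ2.hom g) : HasGenus f g := by
  have hr : ∀ {S : CommRingCat.{0}} (v : Spec S ⟶ X) [IsOpenImmersion v] (U : X.Opens),
      v.opensRange ≤ U → (⊤ : (Spec S).Opens) ≤ v ⁻¹ᵁ U := by
    intro S v _ U hU x _
    exact hU ⟨x, rfl⟩
  have hU0 := hr v0 v0.opensRange le_rfl
  have hU2 := hr v2 v2.opensRange le_rfl
  have hW : (⊤ : (Spec S02).Opens) ≤ v02 ⁻¹ᵁ (v0.opensRange ⊓ v2.opensRange) :=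
    hr v02 _ h2.le
  have hW0 : (⊤ : (Spec S02).Opens) ≤ v02 ⁻¹ᵁ v0.opensRange := hr v02 _ (h2.le.trans inf_le_left)
  have hW2 : (⊤ : (Spec S02).Opens) ≤ v02 ⁻¹ᵁ v2.opensRange := hr v02 _ (h2.le.trans inf_le_right)
  have i0 := chartHom_isIso v0 _ rfl hU0
  have i2 := chartHom_isIso v2 _ rfl hU2
  have iW := chartHom_isIso v02 _ h2.symm hW
  refine ⟨v0.opensRange, v2.opensRange, isAffineOpen_opensRange v0, isAffineOpen_opensRange v2,
    ?_, h1, ?_⟩
  · rw [← h2]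
    exact isAffineOpen_opensRange v02
  · unfold CechDim
    refine cokerDim_of_equiv (chartHom v0 _ hU0).hom (chartHom v2 _ hU2).hom ?_ ?_
      (asIso (chartHom v02 _ hW)).commRingCatIsoToRingEquiv _ σ.hom _ _ ρ0.hom ρ2.hom ?_ ?_ ?_ h
    · exact (ConcreteCategory.bijective_of_isIso (chartHom v0 _ hU0)).surjective
    · exact (ConcreteCategory.bijective_of_isIso (chartHom v2 _ hU2)).surjective
    · intro x
      exact fnHom_chartHom f v02 _ hW σ eσ x
    · intro a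
      have h3 : X.presheaf.map (homOfLE (inf_le_left : v0.opensRange ⊓ v2.opensRange ≤ _)).op ≫
          chartHom v02 _ hW = chartHom v0 _ hU0 ≫ ρ0 := by
        rw [map_chartHom v02 _ _ inf_le_left hW hW0, chartHom_comp v0 v02 ρ0 e0 _ hU0 hW0]
      exact congrArg (fun φ => φ.hom a) h3
    · intro a
      have h3 : X.presheaf.map (homOfLE (inf_le_right : v0.opensRange ⊓ v2.opensRange ≤ _)).op ≫
          chartHom v02 _ hW = chartHom v2 _ hU2 ≫ ρ2 := by
        rw [map_chartHom v02 _ _ inf_le_right hW hW2, chartHom_comp v2 v02 ρ2 e2 _ hU2 hW2]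
      exact congrArg (fun φ => φ.hom a) h3

end

end Pool.Agent.W129.GB
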